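import Mathlib
import Pool.Agent.Helper555_TN.Free

set_option autoImplicit false

/-!
# The normalizer of the tame group of the free associative algebra in three generators

`TAutF n K` is the subgroup of the automorphism group of the free associative algebra
`FreeAlgebra K (Fin n)` generated by the affine and the elementary automorphisms, and `abel K n` is
the projection onto the polynomial algebra.  Over a field of characteristic zero an automorphism of
the free associative algebra in three generators which conjugates tame automorphisms to tame
automorphisms is, up to a tame automorphism, congruent to the identity modulo commutators.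
-/

namespace Pool.Agent.Results.MP_e1f7e2_al.FreeThreeModCommutators

open Pool.Agent.Helper555_TN

theorem result {K : Type*} [Field K] [CharZero K]
    (ψ : FreeAlgebra K (Fin 3) ≃ₐ[K] FreeAlgebra K (Fin 3))
    (h : ∀ φ ∈ TAutF 3 K, ψ⁻¹ * φ * ψ ∈ TAutF 3 K) :
    ∃ τ ∈ TAutF 3 K, ∀ x, abel K 3 ((τ * ψ) x) = abel K 3 x :=
  norm_free ψ h

end Pool.Agent.Results.MP_e1f7e2_al.FreeThreeModCommutators
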