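import Mathlib
import Pool.Agent.Helper555_TN.Norm

set_option autoImplicit false

/-!
# The normalizer of the tame automorphism group in three variables

`TAut n K` is the subgroup of the automorphism group of the polynomial algebra in `n` variables
generated by the affine and the elementary automorphisms.  Over a field of characteristic zero an
automorphism of the polynomial algebra in three variables which conjugates tame automorphisms to
tame automorphisms is tame.
-/

open MvPolynomial

namespace Pool.Agent.Results.MP_e1f7e2_al.NormalizerDim3

open Pool.Agent.Helper555_TN

theorem result {K : Type*} [Field K] [CharZero K]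
    (ψ : MvPolynomial (Fin 3) K ≃ₐ[K] MvPolynomial (Fin 3) K)
    (h : ∀ φ ∈ TAut 3 K, ψ⁻¹ * φ * ψ ∈ TAut 3 K) : ψ ∈ TAut 3 K :=
  norm_tame ψ h

end Pool.Agent.Results.MP_e1f7e2_al.NormalizerDim3
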